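import Pool.Agent.H59.PG.Stmts

/-!
# RSL: the list of the vertices of the game with resets
-/

set_option autoImplicit false

namespace Pool.PG

namespace RSL

theorem fm_len {α : Type} (n : ℕ) (a b : ℕ → α) :
    ((List.range n).flatMap fun u => [a u, b u]).length = 2 * n := by
  induction n with
  | zero => rfl
  | succ n ih =>
    rw [List.range_succ, List.flatMap_append, List.length_append, ih]
    rfl

theorem fm_get {α : Type} (n : ℕ) (a b : ℕ → α) (d : α) : ∀ (t : List α) (u : ℕ), u < n →
    (((List.range n).flatMap fun u => [a u, b u]) ++ t).getD (2 * u) d = a u ∧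
    (((List.range n).flatMap fun u => [a u, b u]) ++ t).getD (2 * u + 1) d = b u := by
  induction n with
  | zero => intro t u hu; exact absurd hu (Nat.not_lt_zero u)
  | succ n ih =>
    intro t u hu
    have h1 : ((List.range (n + 1)).flatMap fun u => [a u, b u]) ++ t =
        ((List.range n).flatMap fun u => [a u, b u]) ++ ([a n, b n] ++ t) := by
      rw [List.range_succ, List.flatMap_append, List.append_assoc]
      rfl
    rw [h1]
    rcases Nat.lt_succ_iff_lt_or_eq.mp hu with h | h
    · exact ih _ u h
    · subst h
      have hl := fm_len u a b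
      constructor
      · rw [List.getD_append_right _ _ _ _ (by omega), hl, Nat.sub_self]
        rfl
      · rw [List.getD_append_right _ _ _ _ (by omega), hl, Nat.add_sub_cancel_left]
        rfl

theorem fm_tail {α : Type} (n : ℕ) (a b : ℕ → α) (d : α) (t : List α) (k : ℕ) :
    (((List.range n).flatMap fun u => [a u, b u]) ++ t).getD (2 * n + k) d = t.getD k d := by
  have hl := fm_len n a b
  rw [List.getD_append_right _ _ _ _ (by omega), hl, Nat.add_sub_cancel_left]

theorem toNat_le (b : Bool) : b.toNat ≤ 1 := by cases b <;> simp

end RSL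

theorem rsl_row : RSLStmt := by
  intro g r
  have h1 : (rst r g).length = 2 * g.length + 3 := by
    unfold rst
    rw [List.length_append, RSL.fm_len]
    rfl
  have h2 : ∀ u < g.length,
      vx (rst r g) (2 * u) =
        ((!own g u, pri g u + 2), [2 * g.length + (!own g u).toNat, 2 * u + 1]) ∧
      vx (rst r g) (2 * u + 1) =
        ((own g u, pri g u + 2),
          (2 * g.length + (own g u).toNat) :: (suc g u).map fun w => 2 * w) := by
    intro u hu
    exact RSL.fm_get g.length
      (fun u => ((!own g u, pri g u + 2), [2 * g.length + (!own g u).toNat, 2 * u + 1]))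
      (fun u => ((own g u, pri g u + 2),
          (2 * g.length + (own g u).toNat) :: (suc g u).map fun w => 2 * w)) _ _ u hu
  have h3 : vx (rst r g) (2 * g.length) = ((false, 0), [2 * r]) :=
    RSL.fm_tail g.length
      (fun u => ((!own g u, pri g u + 2), [2 * g.length + (!own g u).toNat, 2 * u + 1]))
      (fun u => ((own g u, pri g u + 2),
          (2 * g.length + (own g u).toNat) :: (suc g u).map fun w => 2 * w)) _ _ 0
  have h4 : vx (rst r g) (2 * g.length + 1) = ((true, 1), [2 * r]) :=
    RSL.fm_tail g.length
      (fun u => ((!own g u, pri g u + 2), [2 * g.length + (!own g u).toNat, 2 * u + 1]))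
      (fun u => ((own g u, pri g u + 2),
          (2 * g.length + (own g u).toNat) :: (suc g u).map fun w => 2 * w)) _ _ 1
  have h5 : vx (rst r g) (2 * g.length + 2) = ((true, 0), [2 * r]) :=
    RSL.fm_tail g.length
      (fun u => ((!own g u, pri g u + 2), [2 * g.length + (!own g u).toNat, 2 * u + 1]))
      (fun u => ((own g u, pri g u + 2),
          (2 * g.length + (own g u).toNat) :: (suc g u).map fun w => 2 * w)) _ _ 2
  refine ⟨h1, h2, h3, h4, h5, ?_⟩
  intro hg hr v hv
  rw [h1] at hv ⊢
  rcases Nat.lt_or_ge v (2 * g.length) with hv' | hv'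
  · obtain ⟨u, hu | hu⟩ := Nat.even_or_odd' v
    · have hul : u < g.length := by omega
      have h6 : suc (rst r g) v = [2 * g.length + (!own g u).toNat, 2 * u + 1] := by
        unfold suc
        rw [hu, (h2 u hul).1]
      rw [h6]
      refine ⟨List.cons_ne_nil _ _, ?_⟩
      intro w hw
      have h7 := RSL.toNat_le (!own g u)
      rcases List.mem_cons.mp hw with hw | hw
      · omega
      · have := List.mem_singleton.mp hw
        omega
    · have hul : u < g.length := by omega
      have h6 : suc (rst r g) v =
          (2 * g.length + (own g u).toNat) :: (suc g u).map fun w => 2 * w := by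
        have h8 : suc (rst r g) v = (vx (rst r g) v).2 := rfl
        rw [h8, hu, (h2 u hul).2]
      rw [h6]
      refine ⟨List.cons_ne_nil _ _, ?_⟩
      intro w hw
      have h7 := RSL.toNat_le (own g u)
      rcases List.mem_cons.mp hw with hw | hw
      · omega
      · obtain ⟨w', hw', hww⟩ := List.mem_map.mp hw
        have := (hg u hul).2 w' hw'
        omega
  · have h9 : suc (rst r g) v = [2 * r] := by
      have h8 : suc (rst r g) v = (vx (rst r g) v).2 := rfl
      have h10 : v = 2 * g.length ∨ v = 2 * g.length + 1 ∨ v = 2 * g.length + 2 := by omega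
      rcases h10 with h | h | h
      · rw [h8, h, h3]
      · rw [h8, h, h4]
      · rw [h8, h, h5]
    rw [h9]
    refine ⟨List.cons_ne_nil _ _, ?_⟩
    intro w hw
    have := List.mem_singleton.mp hw
    omega

end Pool.PG
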